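import Mathlib

namespace Pool.Agent.Results.MP_8ccf7f_al.No

open scoped TensorProduct PowerSeries
open PowerSeries

universe u v

section Defs

variable (k : Type u) [Field k] {A : Type u} [CommRing A] [Algebra k A]
  {B : Type v} [Ring B] [Bialgebra k B]

/-- A `k[[t]]`-deformation of `A`: an associative unital `k[[t]]`-bilinear multiplication
on `A[[t]]` that reduces to the product of `A` modulo `t`. -/
structure IsDeformation (m : A⟦X⟧ →ₗ[k⟦X⟧] A⟦X⟧ →ₗ[k⟦X⟧] A⟦X⟧) : Prop where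
  assoc : ∀ x y z, m (m x y) z = m x (m y z)
  unital : ∃ e, ∀ x, m e x = x ∧ m x e = x
  red : ∀ x y, constantCoeff (m x y) = constantCoeff x * constantCoeff y

/-- `act ρ x y (b ⊗ c) = (b · x) (c · y)`, that is `μ (F (x ⊗ y))` for `F` in `B ⊗ B`. -/
noncomputable def act (ρ : B →ₐ[k] Module.End k A) (x y : A) : B ⊗[k] B →ₗ[k] A :=
  LinearMap.mul' k A ∘ₗ
    TensorProduct.map (LinearMap.applyₗ x ∘ₗ ρ.toLinearMap) (LinearMap.applyₗ y ∘ₗ ρ.toLinearMap)

/-- The `B`-module structure `ρ` makes `A` a `B`-module algebra. -/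
def IsModuleAlgebra (ρ : B →ₐ[k] Module.End k A) : Prop :=
  (∀ b x y, ρ b (x * y) = act k ρ x y (Coalgebra.comul b)) ∧
    ∀ b, ρ b 1 = Coalgebra.counit (R := k) b • (1 : A)

/-- A universal deformation formula over `k[[t]]` based on `B`. -/
structure IsUDF (F : (B ⊗[k] B)⟦X⟧) : Prop where
  twist : PowerSeries.map (Algebra.TensorProduct.assoc k k k B B B).toRingHom
      (PowerSeries.map (Algebra.TensorProduct.map (Bialgebra.comulAlgHom k B)
          (AlgHom.id k B)).toRingHom F *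
        PowerSeries.map (Algebra.TensorProduct.includeLeftRingHom (R := k) (B := B)) F) =
    PowerSeries.map (Algebra.TensorProduct.map (AlgHom.id k B)
          (Bialgebra.comulAlgHom k B)).toRingHom F *
        PowerSeries.map (Algebra.TensorProduct.includeRight (R := k) (A := B)).toRingHom F
  left : PowerSeries.map ((Algebra.TensorProduct.lid k B).toAlgHom.comp
      (Algebra.TensorProduct.map (Bialgebra.counitAlgHom k B) (AlgHom.id k B))).toRingHom F = 1
  right : PowerSeries.map ((Algebra.TensorProduct.rid k k B).toAlgHom.comp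
      (Algebra.TensorProduct.map (AlgHom.id k B) (Bialgebra.counitAlgHom k B))).toRingHom F = 1
  red : constantCoeff F = 1

/-- The product `a * b = μ (F (a ⊗ b))`, extended `k[[t]]`-linearly to `A[[t]]`. -/
noncomputable def star (ρ : B →ₐ[k] Module.End k A) (F : (B ⊗[k] B)⟦X⟧) (x y : A⟦X⟧) : A⟦X⟧ :=
  PowerSeries.mk fun n => ∑ p ∈ Finset.HasAntidiagonal.antidiagonal n, ∑ q ∈ Finset.HasAntidiagonal.antidiagonal p.1,
    act k ρ (coeff q.1 x) (coeff q.2 y) (coeff p.2 F)

/-- Equivalence of two multiplications on `A[[t]]`. -/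
def Equivalent (m m' : A⟦X⟧ → A⟦X⟧ → A⟦X⟧) : Prop :=
  ∃ T : A⟦X⟧ ≃ₗ[k⟦X⟧] A⟦X⟧, (∀ x, constantCoeff (T x) = constantCoeff x) ∧
    ∀ x y, T (m x y) = m' (T x) (T y)

end Defs

section Proof

variable (k : Type u) [Field k]

abbrev P := Polynomial k
abbrev AA := TrivSqZeroExt k (P k)

theorem act_tmul {A : Type u} [CommRing A] [Algebra k A] {B : Type v} [Ring B] [Bialgebra k B]
    (ρ : B →ₐ[k] Module.End k A) (x y : A) (b c : B) :
    act k ρ x y (b ⊗ₜ c) = ρ b x * ρ c y := by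
  simp [act]

theorem act_one {A : Type u} [CommRing A] [Algebra k A] {B : Type v} [Ring B] [Bialgebra k B]
    (ρ : B →ₐ[k] Module.End k A) (x y : A) : act k ρ x y 1 = x * y := by
  rw [Algebra.TensorProduct.one_def, act_tmul]; simp

theorem smul_def {A : Type u} [CommRing A] [Algebra k A] (r : k⟦X⟧) (x : A⟦X⟧) :
    r • x = PowerSeries.map (algebraMap k A) r * x := Algebra.smul_def r x

/-- coefficientwise application of a linear map -/
noncomputable def cmap {A A' : Type u} [CommRing A] [Algebra k A] [CommRing A'] [Algebra k A']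
    (f : A →ₗ[k] A') : A⟦X⟧ →ₗ[k⟦X⟧] A'⟦X⟧ where
  toFun x := PowerSeries.mk fun n => f (coeff n x)
  map_add' x y := by ext n; simp
  map_smul' r x := by
    ext n
    simp only [coeff_mk, RingHom.id_apply, smul_def, coeff_mul, map_sum, coeff_map]
    refine Finset.sum_congr rfl fun p _ => ?_
    rw [← Algebra.smul_def, ← Algebra.smul_def, map_smul]

theorem coeff_cmap {A A' : Type u} [CommRing A] [Algebra k A] [CommRing A'] [Algebra k A']
    (f : A →ₗ[k] A') (x : A⟦X⟧) (n : ℕ) : coeff n (cmap k f x) = f (coeff n x) := by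
  simp [cmap]

noncomputable def S : (AA k)⟦X⟧ →ₗ[k⟦X⟧] (P k)⟦X⟧ := cmap k (TrivSqZeroExt.sndHom k (P k))
noncomputable def J : (P k)⟦X⟧ →ₗ[k⟦X⟧] (AA k)⟦X⟧ := cmap k (TrivSqZeroExt.inrHom k (P k))
noncomputable def p : (AA k)⟦X⟧ →+* (P k)⟦X⟧ :=
  PowerSeries.map ((algebraMap k (P k)).comp (TrivSqZeroExt.fstHom k k (P k)).toRingHom)

theorem S_J (w : (P k)⟦X⟧) : S k (J k w) = w := by
  ext1 n; simp [S, J, coeff_cmap]

theorem p_J (w : (P k)⟦X⟧) : p k (J k w) = 0 := by
  ext1 n; simp [p, J, coeff_cmap]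

theorem S_mul (x y : (AA k)⟦X⟧) : S k (x * y) = p k x * S k y + p k y * S k x := by
  ext1 n
  rw [mul_comm (p k y)]
  simp only [S, p, coeff_cmap, coeff_mul, map_sum, map_add, coeff_map, ← Finset.sum_add_distrib]
  refine Finset.sum_congr rfl fun q _ => ?_
  simp [TrivSqZeroExt.snd_mul, Polynomial.smul_eq_C_mul, mul_comm]

theorem inj (x y : (AA k)⟦X⟧) (h1 : p k x = p k y) (h2 : S k x = S k y) : x = y := by
  ext1 n
  have a1 := congrArg (coeff n) h1
  have a2 := congrArg (coeff n) h2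
  simp only [p, S, coeff_map, coeff_cmap] at a1 a2
  exact TrivSqZeroExt.ext (Polynomial.C_injective a1) a2

noncomputable def mm : (AA k)⟦X⟧ →ₗ[k⟦X⟧] (AA k)⟦X⟧ →ₗ[k⟦X⟧] (AA k)⟦X⟧ :=
  LinearMap.mul k⟦X⟧ (AA k)⟦X⟧ +
    (X : k⟦X⟧) • ((LinearMap.mul k⟦X⟧ (P k)⟦X⟧).compl₁₂ (S k) (S k)).compr₂ (J k)

theorem mm_apply (x y : (AA k)⟦X⟧) :
    mm k x y = x * y + (X : k⟦X⟧) • J k (S k x * S k y) := by
  simp [mm]

theorem p_mm (x y : (AA k)⟦X⟧) : p k (mm k x y) = p k x * p k y := by
  rw [mm_apply, smul_def, map_add, map_mul, map_mul, p_J, mul_zero, add_zero]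

theorem S_mm (x y : (AA k)⟦X⟧) :
    S k (mm k x y) = p k x * S k y + p k y * S k x + X * (S k x * S k y) := by
  rw [mm_apply, map_add, map_smul, S_J, S_mul, smul_def, map_X]

theorem S_one : S k 1 = 0 := by
  ext1 n
  simp only [S, coeff_cmap, coeff_one]
  split_ifs <;> simp

theorem isDef : IsDeformation k (mm k) where
  assoc x y z := by
    apply inj
    · simp only [p_mm, mul_assoc]
    · simp only [p_mm, S_mm]; ring
  unital := ⟨1, fun x => by simp [mm_apply, S_one, smul_def]⟩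
  red x y := by
    rw [mm_apply, smul_def, map_X]; simp

theorem core {ι : Type v} (s : Finset ι) (f g : ι → Module.End k (AA k))
    (ψ : AA k →ₗ[k] AA k) :
    ∃ w : P k, w ≠ 0 ∧ (ψ (TrivSqZeroExt.inr w)).fst = 0 ∧
      ∀ i ∈ s, (f i (TrivSqZeroExt.inr w)).fst = 0 ∧ (g i (TrivSqZeroExt.inr w)).fst = 0 := by
  let φ : (AA k →ₗ[k] AA k) → (P k →ₗ[k] k) := fun h =>
    (TrivSqZeroExt.fstHom k k (P k)).toLinearMap ∘ₗ h ∘ₗ TrivSqZeroExt.inrHom k (P k)
  let L : P k →ₗ[k] k × (s → k × k) :=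
    (φ ψ).prod (LinearMap.pi fun i => (φ (f i)).prod (φ (g i)))
  by_contra h
  push Not at h
  refine Polynomial.not_finite (R := k) (Module.Finite.of_injective L ?_)
  rw [injective_iff_map_eq_zero]
  intro w hw
  by_contra hne
  obtain ⟨i, hi, h2⟩ := h w hne (congrArg Prod.fst hw)
  have h3 := congrFun (congrArg Prod.snd hw) ⟨i, hi⟩
  exact h2 (congrArg Prod.fst h3) (congrArg Prod.snd h3)

theorem mul_zero_of {x y : AA k} (hx : x.fst = 0) (hy : y.fst = 0) : x * y = 0 := by
  ext <;> simp [hx, hy]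

end Proof

theorem result (k : Type u) [Field k] [CharZero k] :
    ∃ (A : Type u) (_ : CommRing A) (_ : Algebra k A)
      (m : A⟦X⟧ →ₗ[k⟦X⟧] A⟦X⟧ →ₗ[k⟦X⟧] A⟦X⟧), IsDeformation k m ∧
      ∀ (B : Type v) [Ring B] [Bialgebra k B] (ρ : B →ₐ[k] Module.End k A)
        (F : (B ⊗[k] B)⟦X⟧), IsModuleAlgebra k ρ → IsUDF k F →
        ¬ Equivalent k (fun x y => m x y) (star k ρ F) := by
  refine ⟨AA k, inferInstance, inferInstance, mm k, isDef k, ?_⟩
  rintro B _ _ ρ F - hF ⟨T, hT0, hT⟩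
  obtain ⟨s, hs⟩ := TensorProduct.exists_finset (coeff 1 F)
  let ψ : AA k →ₗ[k] AA k :=
    { toFun := fun a => coeff 1 (T (C a))
      map_add' := fun a b => by simp
      map_smul' := fun c a => by
        have h1 : (C (c • a) : (AA k)⟦X⟧) = (C c : k⟦X⟧) • C a := by
          rw [smul_def, map_C, ← map_mul, Algebra.smul_def]
        rw [h1, map_smul, smul_def, map_C, coeff_C_mul, Algebra.smul_def]; rfl }
  obtain ⟨w, hw, h1, h2⟩ := core k s (fun i => ρ i.1) (fun i => ρ i.2) ψ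
  set v : AA k := TrivSqZeroExt.inr w with hv
  have hv0 : v.fst = 0 := rfl
  have e1 := congrArg (coeff 1) (hT (C v) (C v))
  have c0 : coeff 0 (T (C v)) = v := by
    rw [coeff_zero_eq_constantCoeff_apply, hT0, constantCoeff_C]
  have c1 : coeff 1 (T (C v)) = ψ v := rfl
  have F0 : coeff 0 F = 1 := by rw [coeff_zero_eq_constantCoeff_apply, hF.red]
  have r : coeff 1 (star k ρ F (T (C v)) (T (C v))) = 0 := by
    simp only [star, coeff_mk, Finset.Nat.antidiagonal_succ, Finset.Nat.antidiagonal_zero,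
      Finset.sum_cons, Finset.map_singleton, Finset.sum_singleton]
    simp only [Function.Embedding.coe_prodMap, Function.Embedding.coeFn_mk, Prod.map_apply,
      Function.Embedding.refl_apply, Nat.succ_eq_add_one, zero_add]
    simp only [F0, act_one, Finset.Nat.antidiagonal_succ, Finset.Nat.antidiagonal_zero,
      Finset.sum_cons, Finset.map_singleton, Finset.sum_singleton,
      Function.Embedding.coe_prodMap, Function.Embedding.coeFn_mk, Prod.map_apply,
      Function.Embedding.refl_apply, Nat.succ_eq_add_one, zero_add, c0, c1, hs, map_sum, act_tmul]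
    rw [mul_zero_of k hv0 h1, mul_zero_of k h1 hv0, Finset.sum_eq_zero]
    · simp
    · exact fun i hi => mul_zero_of k (h2 i hi).1 (h2 i hi).2
  have l : coeff 1 (T (mm k (C v) (C v))) = TrivSqZeroExt.inr (w * w) := by
    rw [mm_apply, ← map_mul, mul_zero_of k hv0 hv0, map_zero, zero_add, map_smul, smul_def, map_X,
      coeff_succ_X_mul, coeff_zero_eq_constantCoeff_apply, hT0,
      ← coeff_zero_eq_constantCoeff_apply]
    simp [J, S, coeff_cmap, coeff_mul, hv]
  rw [l, r] at e1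
  exact mul_ne_zero hw hw (congrArg TrivSqZeroExt.snd e1)

end Pool.Agent.Results.MP_8ccf7f_al.No
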